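import Pool.Agent.H96.PC.Final
import Pool.Agent.H75.PSys.Upper

/-!
Purely catalytic P systems with one membrane and exactly one copy of each of two catalysts
generate exactly the recursively enumerable sets of natural numbers.
-/

namespace Pool.Agent.Results.MP_1dfda1_lc.OneMembrane

open Pool.Agent.H75.PSys Pool.Agent.H96.PC Multiset

/-- Purely catalytic P systems with two catalysts are computationally complete, in the strictest
sense: one membrane, exactly one copy of each of the two catalysts, no rule which produces a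
catalyst, output to the environment.  `NPs m r` and `NPsStar r` are the families defined by systems
with at most `r` catalysts in the whole system, `NP m r` and `NPstar r` those defined by systems
whose set of catalysts has at most `r` elements. -/
theorem result :
    (∀ A ∈ NRE, ∃ Γ : PSystem, Fintype.card Γ.M = 1 ∧ Γ.C.card = 2 ∧
      (∀ c ∈ Γ.C, count c (Γ.w Γ.skin) = 1) ∧
      (∀ i, ∀ ρ ∈ Γ.rules i, ∀ p ∈ ρ.prod, p.1 ∉ Γ.C) ∧ Γ.iout = none ∧ Γ.N = A) ∧
    (∀ m, 1 ≤ m → NPs m 2 = NRE) ∧ NPsStar 2 = NRE ∧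
    (∀ m, 1 ≤ m → NP m 2 = NRE) ∧ NPstar 2 = NRE := by
  refine ⟨fun A hA => ?_, fun m hm => ?_, ?_, fun m hm => ?_, ?_⟩
  · obtain ⟨Γ, h1, h2, h3, _, h5, h6, h7⟩ := exists_sys hA
    exact ⟨Γ, h1, h2, h3, h5, h6, h7⟩
  · ext A
    constructor
    · rintro ⟨Γ, _, _, _, _, rfl⟩
      exact Γ.rePred_N
    · intro hA
      obtain ⟨Γ, h1, h2, h3, h4, h5, h6, h7⟩ := exists_sys hA
      exact ⟨Γ, h1.le.trans hm, h4.le, h2.le, h5, h7⟩
  · ext A
    constructor
    · rintro ⟨Γ, _, _, _, rfl⟩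
      exact Γ.rePred_N
    · intro hA
      obtain ⟨Γ, h1, h2, h3, h4, h5, h6, h7⟩ := exists_sys hA
      exact ⟨Γ, h4.le, h2.le, h5, h7⟩
  · ext A
    constructor
    · rintro ⟨Γ, _, _, rfl⟩
      exact Γ.rePred_N
    · intro hA
      obtain ⟨Γ, h1, h2, h3, h4, h5, h6, h7⟩ := exists_sys hA
      exact ⟨Γ, h1.le.trans hm, h2.le, h7⟩
  · ext A
    constructor
    · rintro ⟨Γ, _, rfl⟩
      exact Γ.rePred_N
    · intro hA
      obtain ⟨Γ, h1, h2, h3, h4, h5, h6, h7⟩ := exists_sys hA
      exact ⟨Γ, h2.le, h7⟩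

end Pool.Agent.Results.MP_1dfda1_lc.OneMembrane
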